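import Mathlib

namespace Pool.Agent.H.MP_37c966_co

open SimpleGraph

def FC {α V : Type} (F : SimpleGraph α) (H : SimpleGraph V) (k : ℕ) : Prop :=
  ∃ c : V → Fin k, ∀ (e : F ↪g H) (i : Fin k), ¬ ∀ v, c (e v) = i

def Rel {α β : Type} (F : SimpleGraph α) (G : SimpleGraph β) (n : ℕ) : Prop :=
  ∃ (V : Type) (_ : Fintype V) (H : SimpleGraph V),
    IsLeast {k | FC F H k} n ∧ IsLeast {k | FC G H k} n

def ext {V : Type} (H : SimpleGraph V) (W : Type) : SimpleGraph (V ⊕ ((V → Prop) × W)) where
  Adj x y := match x, y with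
    | .inl u, .inl v => H.Adj u v
    | .inl u, .inr f => f.1 u
    | .inr f, .inl u => f.1 u
    | .inr _, .inr _ => False
  symm := ⟨by
    rintro (u | f) (v | g) h
    · exact h.symm
    · exact h
    · exact h
    · exact h⟩
  loopless := ⟨by
    rintro (u | f) h
    · exact H.irrefl h
    · exact h⟩

theorem key {α : Type} [Fintype α] [Nonempty α] (G : SimpleGraph α) (s : α → Bool)
    (hs : ∀ a b, G.Adj a b → s a ≠ s b) (r : ℕ) (l : ℕ) :
    ∃ (V : Type) (_ : Fintype V) (H : SimpleGraph V), H.Colorable l ∧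
      ∀ c : V → Fin r, (∀ (e : G ↪g H) (i : Fin r), ¬ ∀ v, c (e v) = i) → 0 < r →
        ∃ (col : Fin l ↪ Fin r) (x : Fin l → α ↪ V), (∀ i a, c (x i a) = col i) ∧
          ∀ i a b, ¬ H.Adj (x i a) (x i b) := by
  classical
  induction l with
  | zero =>
    refine ⟨Empty, inferInstance, ⊥, ⟨Coloring.mk (fun v => v.elim) (fun {v} => v.elim)⟩, ?_⟩
    intro c _ _
    exact ⟨Function.Embedding.ofIsEmpty, fun i => i.elim0, fun i => i.elim0, fun i => i.elim0⟩
  | succ l ih =>
    obtain ⟨V, iV, H, ⟨C⟩, hH⟩ := ih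
    refine ⟨V ⊕ ((V → Prop) × ((Fin r → α) × (Fin r × α))), inferInstance, ext H _, ?_, ?_⟩
    · refine ⟨Coloring.mk (fun v => match v with
        | .inl u => (C u).castSucc
        | .inr _ => Fin.last l) ?_⟩
      rintro (u | f) (v | g) h
      · simpa using C.valid h
      · exact (Fin.castSucc_lt_last _).ne
      · exact (Fin.castSucc_lt_last _).ne'
      · exact h.elim
    · intro c hc hr
      have hc' : ∀ (e : G ↪g H) (i : Fin r), ¬ ∀ v, (c ∘ Sum.inl) (e v) = i := by
        intro e i h
        exact hc ⟨e.toEmbedding.trans Function.Embedding.inl, fun {a b} => e.map_rel_iff⟩ i h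
      obtain ⟨col, x, hx1, hx2⟩ := hH (c ∘ Sum.inl) hc' hr
      have hb : ∀ i : Fin l, ∃ b : α, ∀ (f : V → Prop) (β : Fin r → α) (m : Fin r × α),
          β (col i) = b → (∀ a, f (x i a) ↔ G.Adj a b) → c (.inr (f, β, m)) ≠ col i := by
        intro i
        by_contra hcon
        push Not at hcon
        choose f β m h1 h2 h3 using hcon
        refine hc ⟨⟨fun a => if s a then .inl (x i a) else .inr (f a, β a, m a), ?_⟩, ?_⟩
          (col i) ?_
        · intro a b hab
          by_cases ha : s a = true <;> by_cases hb : s b = true <;> simp [ha, hb] at hab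
          · exact hab
          · rw [← h1 a, ← h1 b, hab.2.1]
        · intro a b
          by_cases ha : s a = true <;> by_cases hb : s b = true <;>
            simp only [Function.Embedding.coeFn_mk, ha, hb, if_true, if_false, ext,
              Bool.false_eq_true]
          · constructor
            · intro h; exact (hx2 i a b h).elim
            · intro h; exact (hs a b h (by rw [ha, hb])).elim
          · exact h2 b a
          · rw [h2 a b, G.adj_comm]
          · constructor
            · intro h; exact h.elim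
            · intro h
              exact hs a b h (by simp only [Bool.not_eq_true] at ha hb; rw [ha, hb])
        · intro a
          by_cases ha : s a = true
          · simp only [RelEmbedding.coe_mk, Function.Embedding.coeFn_mk, ha, if_true]
            exact hx1 i a
          · simp only [RelEmbedding.coe_mk, Function.Embedding.coeFn_mk, ha, if_false,
              Bool.false_eq_true]
            exact h3 a
      choose b hb using hb
      let f : V → Prop := fun v => ∃ i a, x i a = v ∧ G.Adj a (b i)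
      let β : Fin r → α := Function.extend col b (fun _ => Classical.arbitrary α)
      have hβ : ∀ i, β (col i) = b i := fun i => col.injective.extend_apply _ _ i
      have hf : ∀ i a, f (x i a) ↔ G.Adj a (b i) := by
        intro i a
        constructor
        · rintro ⟨j, a', h1, h2⟩
          have hij : j = i := by
            apply col.injective
            rw [← hx1 j a', ← hx1 i a, h1]
          subst hij
          rw [← (x j).injective h1]; exact h2
        · intro h; exact ⟨i, a, rfl, h⟩
      have hnew : ∀ m i, c (.inr (f, β, m)) ≠ col i := fun m i => hb i f β m (hβ i) (hf i)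
      have : Nonempty (Fin r) := ⟨⟨0, hr⟩⟩
      obtain ⟨k, hk⟩ := Fintype.exists_le_card_fiber_of_mul_le_card
        (fun m : Fin r × α => c (.inr (f, β, m))) (n := Fintype.card α) (by simp)
      have hk' : Fintype.card α ≤ Fintype.card {m : Fin r × α // c (.inr (f, β, m)) = k} := by
        rw [Fintype.card_subtype]; exact hk
      obtain ⟨y⟩ := Function.Embedding.nonempty_of_card_le hk'
      have hk2 : ∀ i, k ≠ col i := by
        intro i h
        exact hnew (y (Classical.arbitrary α)).1 i ((y _).2.trans h)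
      let Y : α ↪ V ⊕ ((V → Prop) × ((Fin r → α) × (Fin r × α))) :=
        ⟨fun a => .inr (f, β, (y a).1), by
          intro a a' h
          simp only [Sum.inr.injEq, Prod.mk.injEq, true_and] at h
          exact y.injective (Subtype.ext h)⟩
      refine ⟨⟨Fin.lastCases k col, ?_⟩,
        Fin.lastCases Y (fun i => (x i).trans Function.Embedding.inl), ?_, ?_⟩
      · intro i j hij
        induction i using Fin.lastCases <;> induction j using Fin.lastCases
        · rfl
        · simp at hij; exact (hk2 _ hij).elim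
        · simp at hij; exact (hk2 _ hij.symm).elim
        · simp at hij; rw [hij]
      · intro i a
        induction i using Fin.lastCases
        · simpa [Y] using (y a).2
        · simpa using hx1 _ a
      · intro i a a'
        induction i using Fin.lastCases
        · simp [ext, Y]
        · simpa [ext] using hx2 _ a a'

theorem FC.mono {α V : Type} [Nonempty α] {F : SimpleGraph α} {H : SimpleGraph V} {k l : ℕ}
    (h : FC F H k) (hkl : k ≤ l) : FC F H l := by
  obtain ⟨c, hc⟩ := h
  refine ⟨fun v => (c v).castLE hkl, fun e i h => ?_⟩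
  refine hc e (c (e (Classical.arbitrary α))) (fun v => ?_)
  apply Fin.castLE_injective hkl
  exact (h v).trans (h _).symm

theorem isLeast_of {α V : Type} [Nonempty α] {F : SimpleGraph α} {H : SimpleGraph V} {r : ℕ}
    (h1 : ¬ FC F H r) (h2 : FC F H (r + 1)) : IsLeast {k | FC F H k} (r + 1) :=
  ⟨h2, fun k hk => by
    by_contra h
    exact h1 (FC.mono hk (by omega))⟩

theorem FC.comap {α V W : Type} {F : SimpleGraph α} {H : SimpleGraph V} {K : SimpleGraph W}
    {k : ℕ} (h : FC F H k) (f : K ↪g H) : FC F K k := by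
  obtain ⟨c, hc⟩ := h
  exact ⟨fun v => c (f v), fun e i h => hc (e.trans f) i h⟩

theorem FC.compl {α V : Type} {F : SimpleGraph α} {H : SimpleGraph V} {k : ℕ}
    (h : FC F H k) : FC Fᶜ Hᶜ k := by
  obtain ⟨c, hc⟩ := h
  exact ⟨c, fun e i h => hc (Embedding.complEquiv.symm e) i h⟩

theorem FC_compl {α V : Type} {F : SimpleGraph α} {H : SimpleGraph V} {k : ℕ} :
    FC Fᶜ Hᶜ k ↔ FC F H k :=
  ⟨fun h => by simpa using h.compl, FC.compl⟩

theorem Rel.compl {α β : Type} {F : SimpleGraph α} {G : SimpleGraph β} {n : ℕ}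
    (h : Rel F G n) : Rel Fᶜ Gᶜ n := by
  obtain ⟨V, iV, H, h1, h2⟩ := h
  exact ⟨V, iV, Hᶜ, by simpa only [FC_compl] using h1, by simpa only [FC_compl] using h2⟩

theorem Rel.symm {α β : Type} {F : SimpleGraph α} {G : SimpleGraph β} {n : ℕ}
    (h : Rel F G n) : Rel G F n := by
  obtain ⟨V, iV, H, h1, h2⟩ := h
  exact ⟨V, iV, H, h2, h1⟩

theorem FC.sum {α V W : Type} {F : SimpleGraph α} (hF : F.Connected) {H : SimpleGraph V}
    {K : SimpleGraph W} {k : ℕ} (h1 : FC F H k) (h2 : FC F K k) : FC F (H ⊕g K) k := by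
  obtain ⟨c, hc⟩ := h1
  obtain ⟨d, hd⟩ := h2
  refine ⟨Sum.elim c d, fun e i h => ?_⟩
  obtain ⟨a⟩ := hF.nonempty
  have hr : ∀ b, (H ⊕g K).Reachable (e a) (e b) := fun b => (hF a b).map e.toHom
  rcases hea : e a with u | w
  · have : ∀ b, ∃ v, e b = .inl v := by
      intro b
      rcases heb : e b with v | w
      · exact ⟨v, rfl⟩
      · have := hr b
        rw [hea, heb] at this
        exact (not_reachable_sum_inl_inr _ _ this).elim
    choose g hg using this
    refine hc ⟨⟨g, fun x y hxy => e.injective (by rw [hg, hg, hxy])⟩, ?_⟩ i ?_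
    · intro x y
      rw [← e.map_rel_iff, hg, hg]
      simp
    · intro x
      have := h x
      rw [hg] at this
      exact this
  · have : ∀ b, ∃ v, e b = .inr v := by
      intro b
      rcases heb : e b with v | w
      · have := (hr b).symm
        rw [hea, heb] at this
        exact (not_reachable_sum_inl_inr _ _ this).elim
      · exact ⟨w, rfl⟩
    choose g hg using this
    refine hd ⟨⟨g, fun x y hxy => e.injective (by rw [hg, hg, hxy])⟩, ?_⟩ i ?_
    · intro x y
      rw [← e.map_rel_iff, hg, hg]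
      simp
    · intro x
      have := h x
      rw [hg] at this
      exact this

theorem ivt {α V : Type} [Nontrivial α] [Fintype V] (F : SimpleGraph α) (H : SimpleGraph V) (r : ℕ)
    (h : ¬ FC F H r) : ∃ S : Finset V, ¬ FC F (H.induce (S : Set V)) r ∧
      FC F (H.induce (S : Set V)) (r + 1) := by
  classical
  have h0 : ∃ S ∈ (Finset.univ.filter fun S : Finset V => ¬ FC F (H.induce (S : Set V)) r), True := by
    refine ⟨Finset.univ, ?_, trivial⟩
    simp only [Finset.mem_filter, Finset.mem_univ, true_and]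
    intro h'
    exact h (h'.comap ⟨⟨fun v => ⟨v, by simp⟩, fun x y hxy => congrArg Subtype.val hxy⟩,
      fun {a b} => Iff.rfl⟩)
  obtain ⟨S0, hS0, -⟩ := h0
  obtain ⟨S, hS, hmin⟩ := Finset.exists_min_image _ Finset.card ⟨S0, hS0⟩
  simp only [Finset.mem_filter, Finset.mem_univ, true_and] at hS hmin
  refine ⟨S, hS, ?_⟩
  rcases S.eq_empty_or_nonempty with rfl | ⟨v, hv⟩
  · exact ⟨fun _ => 0, fun e i _ => by
      have := (e (Classical.arbitrary α)).2
      simp at this⟩
  have h1 : FC F (H.induce ((S.erase v : Finset V) : Set V)) r := by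
    by_contra hh
    have := hmin _ hh
    rw [Finset.card_erase_of_mem hv] at this
    have := Finset.card_pos.mpr ⟨v, hv⟩
    omega
  obtain ⟨c, hc⟩ := h1
  refine ⟨fun x => if hx : x.1 = v then Fin.last r else
    (c ⟨x.1, by simpa [hx] using x.2⟩).castSucc, fun e i h => ?_⟩
  induction i using Fin.lastCases with
  | last =>
    have : ∀ a, (e a).1 = v := by
      intro a
      by_contra hx
      have := h a
      simp only [hx, dif_neg, not_false_eq_true] at this
      exact (Fin.castSucc_lt_last _).ne this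
    obtain ⟨a, b, hab⟩ := exists_pair_ne α
    exact hab (e.injective (Subtype.ext (by rw [this, this])))
  | cast i =>
    have h2 : ∀ a, (e a).1 ≠ v := by
      intro a hx
      have := h a
      simp only [hx, dif_pos] at this
      exact (Fin.castSucc_lt_last _).ne' this
    refine hc ⟨⟨fun a => ⟨(e a).1, by simpa [h2 a] using (e a).2⟩, ?_⟩, ?_⟩ i ?_
    · intro x y hxy
      exact e.injective (Subtype.ext (by simpa using hxy))
    · intro x y
      exact e.map_rel_iff
    · intro a
      have := h a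
      simp only [h2 a, dif_neg, not_false_eq_true] at this
      exact Fin.castSucc_injective _ this

def lex {α V : Type} (F : SimpleGraph α) (H : SimpleGraph V) : SimpleGraph (α × V) where
  Adj x y := F.Adj x.1 y.1 ∨ (x.1 = y.1 ∧ H.Adj x.2 y.2)
  symm := ⟨fun _ _ h => h.elim (fun h => .inl h.symm) (fun h => .inr ⟨h.1.symm, h.2.symm⟩)⟩
  loopless := ⟨fun _ h => h.elim (fun h => F.irrefl h) (fun h => H.irrefl h.2)⟩

def Prime' {γ : Type} (R : SimpleGraph γ) : Prop :=
  ∀ E : γ → γ → Prop, Equivalence E → (∀ i j k, E i j → ¬ E k i → (R.Adj k i ↔ R.Adj k j)) →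
    (∀ i j, E i j → i = j) ∨ ∀ i j, E i j

theorem lex_free {α γ : Type} [Fintype α] [Nontrivial γ] (F : SimpleGraph α) (R : SimpleGraph γ)
    (hp : Prime' R) (hn : IsEmpty (R ↪g F)) (k : ℕ) :
    ∃ (V : Type) (_ : Fintype V) (H : SimpleGraph V), IsEmpty (R ↪g H) ∧ ¬ FC F H k := by
  induction k with
  | zero =>
    refine ⟨Unit, inferInstance, ⊥, ⟨fun e => ?_⟩, fun ⟨c, _⟩ => (c ()).elim0⟩
    obtain ⟨a, b, hab⟩ := exists_pair_ne γ
    exact hab (e.injective rfl)
  | succ k ih =>
    obtain ⟨V, iV, H, h1, h2⟩ := ih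
    refine ⟨α × V, inferInstance, lex F H, ⟨fun e => ?_⟩, ?_⟩
    · rcases hp (fun i j => (e i).1 = (e j).1) ⟨fun _ => rfl, Eq.symm, Eq.trans⟩ (by
        intro i j k hij hk
        rw [← e.map_rel_iff, ← e.map_rel_iff]
        show (F.Adj (e k).1 (e i).1 ∨ (e k).1 = (e i).1 ∧ H.Adj (e k).2 (e i).2) ↔
          (F.Adj (e k).1 (e j).1 ∨ (e k).1 = (e j).1 ∧ H.Adj (e k).2 (e j).2)
        rw [← hij]
        tauto) with h | h
      · refine hn.false ⟨⟨fun i => (e i).1, fun i j hij => h i j hij⟩, ?_⟩
        intro a b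
        rw [← e.map_rel_iff]
        constructor
        · exact fun h => .inl h
        · rintro (h' | h')
          · exact h'
          · have := h _ _ h'.1
            subst this
            exact (H.irrefl h'.2).elim
      · refine h1.false ⟨⟨fun i => (e i).2, fun i j hij => e.injective (Prod.ext (h i j) hij)⟩, ?_⟩
        intro a b
        rw [← e.map_rel_iff]
        constructor
        · exact fun h' => .inr ⟨h a b, h'⟩
        · rintro (h' | h')
          · rw [h a b] at h'
            exact (F.irrefl h').elim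
          · exact h'.2
    · rintro ⟨c, hc⟩
      have : ∀ a, ∃ v, c (a, v) = Fin.last k := by
        intro a
        by_contra hh
        push Not at hh
        refine h2 ⟨fun v => (c (a, v)).castPred (hh v), fun e i h => ?_⟩
        refine hc ⟨⟨fun x => (a, e x), fun x y hxy => e.injective (congrArg Prod.snd hxy)⟩, ?_⟩
          i.castSucc ?_
        · intro x y
          simp [lex]
        · intro x
          rw [← h x]
          simp
      choose v hv using this
      refine hc ⟨⟨fun a => (a, v a), fun x y hxy => congrArg Prod.fst hxy⟩, ?_⟩ _ hv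
      intro x y
      simp only [lex, Function.Embedding.coeFn_mk]
      constructor
      · rintro (h | h)
        · exact h
        · obtain ⟨rfl, h⟩ := h
          exact (H.irrefl h).elim
      · exact fun h => .inl h

theorem FC_of_col {α V : Type} {F : SimpleGraph α} {H : SimpleGraph V} {a b : α} (hab : F.Adj a b)
    {k : ℕ} (h : H.Colorable k) : FC F H k := by
  obtain ⟨D⟩ := h
  exact ⟨D, fun e i h => D.valid (e.map_rel_iff.mpr hab) (by rw [h a, h b])⟩

theorem main {α γ : Type} [Fintype α] [Fintype γ] (F : SimpleGraph α) (R : SimpleGraph γ)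
    {a b : α} (hab : F.Adj a b) {x y : γ} (hxy : R.Adj x y) (hb : R.Colorable 2)
    (hc : R.Connected) (hcc : Rᶜ.Connected) (hp : Prime' R) (hn : IsEmpty (R ↪g F)) (n : ℕ)
    (h1 : 1 ≤ n) : Rel F R n := by
  classical
  obtain ⟨r, rfl⟩ : ∃ r, n = r + 1 := ⟨n - 1, by omega⟩
  have : Nontrivial α := ⟨a, b, hab.ne⟩
  have : Nontrivial γ := ⟨x, y, hxy.ne⟩
  obtain ⟨V0, iV0, H0, h01, h02⟩ := lex_free F R hp hn r
  obtain ⟨S, hS1, hS2⟩ := ivt F H0 r h02
  have hS3 : FC R (H0.induce (S : Set V0)) (r + 1) :=
    FC.comap (H := H0) ⟨fun _ => 0, fun e _ _ => h01.false e⟩ (Embedding.induce _)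
  obtain ⟨W, iW, K, hK1, hK2⟩ : ∃ (W : Type) (_ : Fintype W) (K : SimpleGraph W),
      K.Colorable (r + 1) ∧ ¬ FC R K r := by
    rcases Nat.eq_zero_or_pos r with rfl | hr
    · exact ⟨Unit, inferInstance, ⊥, ⟨Coloring.mk (fun _ => 0) (by simp)⟩,
        fun ⟨c, _⟩ => (c ()).elim0⟩
    obtain ⟨C⟩ := hb
    obtain ⟨W, iW, K, hcol, hH⟩ := key R (fun v => decide (C v = 0)) (by
      intro u v huv h
      have h1 := C.valid huv
      simp only [decide_eq_decide] at h
      omega) r (r + 1)
    refine ⟨W, iW, K, hcol, fun ⟨c, hc⟩ => ?_⟩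
    obtain ⟨col, -⟩ := hH c hc hr
    have := Fintype.card_le_of_embedding col
    simp at this
  have k1 := FC_of_col hab hK1
  have k2 := FC_of_col hxy hK1
  rcases F.connected_or_connected_compl with hF | hF
  · exact ⟨_, inferInstance, H0.induce (S : Set V0) ⊕g K,
      isLeast_of (fun h => hS1 (h.comap Embedding.sumInl)) (hS2.sum hF k1),
      isLeast_of (fun h => hK2 (h.comap Embedding.sumInr)) (hS3.sum hc k2)⟩
  · have : Rel Fᶜ Rᶜ (r + 1) := ⟨_, inferInstance, (H0.induce (S : Set V0))ᶜ ⊕g Kᶜ,
      isLeast_of (fun h => hS1 (FC_compl.mp (h.comap Embedding.sumInl)))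
        (hS2.compl.sum hF k1.compl),
      isLeast_of (fun h => hK2 (FC_compl.mp (h.comap Embedding.sumInr)))
        (hS3.compl.sum hcc k2.compl)⟩
    simpa using this.compl

theorem path_prime (m : ℕ) : Prime' (pathGraph (m + 4)) := by
  intro E hE h
  by_contra hcon
  push Not at hcon
  obtain ⟨⟨i, j, hij, hne⟩, ⟨p, q, hpq⟩⟩ := hcon
  have hb : ∃ u v : Fin (m + 4), (pathGraph (m + 4)).Adj v u ∧ E u i ∧ ¬ E v i := by
    by_contra hh
    push Not at hh
    have hall : ∀ v, E v i := by
      intro v
      obtain ⟨w⟩ := (pathGraph_connected (m + 3)) v i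
      have : ∀ (s t : Fin (m + 4)) (w : (pathGraph (m + 4)).Walk s t), E t i → E s i := by
        intro s t w
        induction w with
        | nil => exact id
        | cons ha _ ih => exact fun ht => hh _ _ ha (ih ht)
      exact this _ _ w (hE.refl i)
    exact hpq (hE.trans (hall p) (hE.symm (hall q)))
  obtain ⟨u, v, huv, hu, hv⟩ := hb
  have hM : ∀ t, E t i → (pathGraph (m + 4)).Adj v t := fun t ht =>
    (h u t v (hE.trans hu (hE.symm ht)) (fun h' => hv (hE.trans h' hu))).mp huv
  have a1 := hM i (hE.refl i)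
  have a2 := hM j (hE.symm hij)
  have hne' : i.val ≠ j.val := fun h => hne (Fin.ext h)
  rw [pathGraph_adj] at a1 a2
  have key2 : ∀ t : Fin (m + 4), ¬ (pathGraph (m + 4)).Adj v t →
      ((pathGraph (m + 4)).Adj t i ↔ (pathGraph (m + 4)).Adj t j) :=
    fun t ht => h i j t hij (fun h' => ht (hM t h'))
  have hi := i.isLt
  have hj := j.isLt
  by_cases hv2 : v.val + 2 < m + 4
  · have := key2 ⟨v.val + 2, hv2⟩ (by rw [pathGraph_adj]; simp; omega)
    simp only [pathGraph_adj] at this
    omega
  · have := key2 ⟨v.val - 2, by omega⟩ (by rw [pathGraph_adj]; simp; omega)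
    simp only [pathGraph_adj] at this
    omega

theorem Prime'.compl {γ : Type} {R : SimpleGraph γ} (h : Prime' R) : Prime' Rᶜ := by
  intro E hE h'
  refine h E hE (fun i j k hij hk => ?_)
  have := h' i j k hij hk
  have n1 : k ≠ i := fun e => hk (e ▸ hE.refl k)
  have n2 : k ≠ j := fun e => hk (e ▸ hE.symm hij)
  simp only [compl_adj, n1, n2, ne_eq, not_false_eq_true, true_and] at this
  exact not_iff_not.mp this

theorem path_cc (m : ℕ) : (pathGraph (m + 4))ᶜ.Connected := by
  have a : ∀ u v : Fin (m + 4), u.val + 2 ≤ v.val → (pathGraph (m + 4))ᶜ.Reachable u v := by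
    intro u v h
    apply Adj.reachable
    rw [compl_adj, pathGraph_adj]
    exact ⟨fun e => by rw [e] at h; omega, by omega⟩
  have h2 : ∀ v : Fin (m + 4), (pathGraph (m + 4))ᶜ.Reachable ⟨0, by omega⟩ v := by
    intro v
    by_cases h : 2 ≤ v.val
    · exact a _ _ (by simpa using h)
    by_cases h0 : v.val = 0
    · have : v = ⟨0, by omega⟩ := Fin.ext h0
      rw [this]
    · exact (a _ ⟨3, by omega⟩ (by simp)).trans (a v ⟨3, by omega⟩ (by simp; omega)).symm
  exact ⟨fun u v => (h2 u).symm.trans (h2 v)⟩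

theorem main_path {α : Type} [Fintype α] (F : SimpleGraph α) {a b : α} (hab : F.Adj a b) (m : ℕ)
    (hn : IsEmpty (pathGraph (m + 4) ↪g F)) (n : ℕ) (h1 : 1 ≤ n) :
    Rel F (pathGraph (m + 4)) n :=
  main F _ hab (x := ⟨0, by omega⟩) (y := ⟨1, by omega⟩) (by rw [pathGraph_adj]; simp)
    (by simpa using (pathGraph.bicoloring (m + 4)).colorable) (pathGraph_connected _) (path_cc m)
    (path_prime m) hn n h1

theorem mixed {α β : Type} [Fintype α] [Fintype β] (F : SimpleGraph α) (G : SimpleGraph β)
    [Nontrivial α] [Nontrivial β] (hF : ∀ a b, ¬ Fᶜ.Adj a b) (hG : ∀ a b, ¬ G.Adj a b) (n : ℕ)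
    (h1 : 1 ≤ n) : Rel F (pathGraph 4) n ∧ Rel (pathGraph 4) G n := by
  constructor
  · obtain ⟨a, b, hab⟩ := exists_pair_ne α
    have h : F.Adj a b := by
      by_contra h
      exact hF a b ⟨hab, h⟩
    refine main_path F h 0 ⟨fun e => ?_⟩ n h1
    refine hF (e 0) (e 2) ⟨fun h => absurd (e.injective h) (by decide), ?_⟩
    rw [e.map_rel_iff, pathGraph_adj]
    decide
  · obtain ⟨a, b, hab⟩ := exists_pair_ne β
    have h : Gᶜ.Adj a b := ⟨hab, hG a b⟩
    have := main Gᶜ (pathGraph 4)ᶜ h (x := 0) (y := 2)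
      ⟨by decide, by rw [pathGraph_adj]; decide⟩
      ⟨Coloring.mk (fun i => if i.val < 2 then 0 else 1) (by
        intro u v huv
        rw [compl_adj, pathGraph_adj] at huv
        revert u v
        decide)⟩ (path_cc 0) (by simpa using pathGraph_connected 3) (path_prime 0).compl
      ⟨fun e => hG (Embedding.complEquiv.symm e 0) (Embedding.complEquiv.symm e 1) (by
        rw [Embedding.map_adj_iff, pathGraph_adj]; decide)⟩ n h1
    simpa using this.compl.symm

theorem final {α β : Type} [Fintype α] [Fintype β] (F : SimpleGraph α) (G : SimpleGraph β)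
    (hα : 2 ≤ Fintype.card α) (hβ : 2 ≤ Fintype.card β) :
    ∃ (γ : Type) (_ : Fintype γ) (R : SimpleGraph γ), 2 ≤ Fintype.card γ ∧
      (∀ n, 1 ≤ n → Rel F R n) ∧ ∀ n, 1 ≤ n → Rel R G n := by
  have : Nontrivial α := Fintype.one_lt_card_iff_nontrivial.mp hα
  have : Nontrivial β := Fintype.one_lt_card_iff_nontrivial.mp hβ
  have big : ∀ {δ : Type} [Fintype δ] (X : SimpleGraph δ) (m : ℕ), Fintype.card δ ≤ m →
      IsEmpty (pathGraph (m + 4) ↪g X) := by
    intro δ _ X m hm
    refine ⟨fun e => ?_⟩
    have := Fintype.card_le_of_injective e e.injective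
    simp at this
    omega
  set m := Fintype.card α + Fintype.card β
  by_cases h1 : (∃ a b, F.Adj a b) ∧ ∃ a b, G.Adj a b
  · obtain ⟨⟨a, b, hab⟩, ⟨x, y, hxy⟩⟩ := h1
    exact ⟨_, inferInstance, pathGraph (m + 4), by simp,
      fun n hn => main_path F hab m (big F m (by omega)) n hn,
      fun n hn => (main_path G hxy m (big G m (by omega)) n hn).symm⟩
  by_cases h2 : (∃ a b, Fᶜ.Adj a b) ∧ ∃ a b, Gᶜ.Adj a b
  · obtain ⟨⟨a, b, hab⟩, ⟨x, y, hxy⟩⟩ := h2
    exact ⟨_, inferInstance, (pathGraph (m + 4))ᶜ, by simp,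
      fun n hn => by simpa using (main_path Fᶜ hab m (big _ m (by omega)) n hn).compl,
      fun n hn => by simpa using (main_path Gᶜ hxy m (big _ m (by omega)) n hn).compl.symm⟩
  obtain ⟨a, b, hab⟩ := exists_pair_ne α
  obtain ⟨x, y, hxy⟩ := exists_pair_ne β
  by_cases hF : ∃ a b, F.Adj a b
  · have hG : ∀ a b, ¬ G.Adj a b := fun a b h => h1 ⟨hF, a, b, h⟩
    have hF' : ∀ a b, ¬ Fᶜ.Adj a b := fun a b h => h2 ⟨⟨a, b, h⟩, x, y, hxy, hG x y⟩
    exact ⟨_, inferInstance, pathGraph 4, by simp, fun n hn => (mixed F G hF' hG n hn).1,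
      fun n hn => (mixed F G hF' hG n hn).2⟩
  · push Not at hF
    have hG' : ∀ a b, ¬ Gᶜ.Adj a b := fun u v h => h2 ⟨⟨a, b, hab, hF a b⟩, u, v, h⟩
    exact ⟨_, inferInstance, pathGraph 4, by simp, fun n hn => (mixed G F hG' hF n hn).2.symm,
      fun n hn => (mixed G F hG' hF n hn).1.symm⟩

end Pool.Agent.H.MP_37c966_co
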